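import Pool.Agent.Helper15.FST.St
import Pool.Agent.Helper70.CPW.Low

/-! ROW [EQ] of FIRST: an unsaturated hull of the zoom has the same volume in the system (helper49's inner direction at
the windows of the zoom, type-labels). -/

set_option autoImplicit false

namespace Pool.Agent.Helper37.FST

open Finset Filter Topology Matrix Pool.Agent.Helper69.RK Pool.Agent.Helper31.EC Pool.Agent.Helper31.EC.Sp
open Pool.Agent.Helper40.EL Pool.Agent.Helper84.MT Pool.Agent.Helper89.LX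
open Pool.Agent.Helper36.AM
open Pool.Agent.Helper3.LF (Mon)
open Pool.Agent.Helper87.NSL (cndR)
open Pool.Agent.Helper49.KL (LitP fR Rz volCO_eq_win)
open Pool.Agent.Helper7.GZ (ZU Rows jac)
open Pool.Agent.Helper7.RD (PZ RW upz clz KLb_mono volCO)
open Pool.Agent.Helper70.CPW (zuz WinR)
open Pool.Agent.Helper29.MX
open Pool.Agent.Helper15.FST (UL Zst ROW_LEV ROW_EQ)

noncomputable section

variable {S T : Sp} {N : ℕ} {E : ℕ → ℕ} {ι : Type}

/-- the mean of a constant over a label -/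
theorem ul_mean (Z : ZU S) (U : ℝ) : ul (fun k => ∑ ω, (Z.l k).T.μ ω * U) = U := by
  have h6 : (fun k => ∑ ω, (Z.l k).T.μ ω * U) = fun _ => U := by
    funext k
    rw [← Finset.sum_mul]
    have h7 : ∑ ω, (Z.l k).T.μ ω = 1 := (Z.l k).T.ms
    rw [h7, one_mul]
  rw [h6, ul_const]

/-- the resolution `bot` of the zoom over a literal label -/
theorem upz_bot (W : Rsl S) {c w : ℝ} (h0 : 0 ≤ c) (hu : 0 < w) (h1 : c + w ≤ 1) :
    upz (zuz W c w h0 hu h1) (fR (rbot S)) = fun k => fc (rbot (zuz W c w h0 hu h1).sp k) := by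
  funext k
  have e1 : Rz (zuz W c w h0 hu h1) (rbot S) k = (⊥ : Setoid ((zuz W c w h0 hu h1).sp.F k).Ω) :=
    Setoid.ext fun x y => Iff.rfl
  have e2 : upz (zuz W c w h0 hu h1) (fR (rbot S)) k = fc (Rz (zuz W c w h0 hu h1) (rbot S) k) := rfl
  rw [e2, e1]
  rfl

theorem bot_lit (W : Rsl S) {c w : ℝ} (h0 : 0 ≤ c) (hu : 0 < w) (h1 : c + w ≤ 1)
    (X : (zuz W c w h0 hu h1).sp.VV N) : LitP (Rz (zuz W c w h0 hu h1) (rbot S)) X := by
  refine Eventually.of_forall fun k ω ω' _ _ _ h => ?_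
  have h3 : ω = ω' := h
  rw [h3]

/-- THE VOLUME OF THE SYSTEM FROM THE VOLUME OF THE ZOOM -/
theorem zst_vol [Finite ι] {s : MSys S N E ι} {κ : ℕ} {c a w U : ℝ} (Z : Zst s κ c a w U) {b e : ℝ} (hb0 : 0 ≤ b)
    (hb1 : b ≤ 1) (he : 0 < e) (he1 : e ≤ 1) {D : ℕ} (hD : 1 ≤ D)
    {y : ∀ k, FD (((Lab.ofZ Z.W).ovr w Z.hu).F k) (Mon N D)} (hy : KAd Z.t (rbot _) D b y)
    (hyO : vol Z.t.Q D y ≤ volKO Z.t (rbot _) b) (hG : GrB Z.t.Q y e) :
    N - volKO s (rbot S) (c + w * b) = U + w * (N - volKO Z.t (rbot _) b) := by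
  obtain ⟨K1, hK1, h1⟩ := Z.dom
  obtain ⟨K2, hK2, h2⟩ := Z.det
  have hcb : c ≤ c + w * b := by
    have := mul_nonneg Z.hu.le hb0
    linarith
  have hsub : S.Sub fun k => K1 k + K2 k := hK1.add hK2
  have hbot := upz_bot (S := S) Z.W Z.h0 Z.hu Z.h1
  have hl := (tlb_iff s (c + w * b) (Lab.ofZ Z.W)).mpr
    ((tlb_iff s (c + w * b) _).mp (KLb_mono (Eventually.of_forall fun _ => le_rfl) hcb
      ((tlb_iff s c _).mpr Z.tlb)))
  have key := volCO_eq_win (κ := Option ι) (κ' := Option ι) Z.z (A := cndR s (rbot S) (c + w * b))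
    (B := cndR Z.t (rbot _) b) (R := rbot S) (bot_lit Z.W Z.h0 Z.hu Z.h1 _) hl.1 hl.2
    (fun i => ⟨i, Z.win.cnd hb0 hb1 i⟩) (fun i => ⟨i, Z.win.cnd' hb0 hb1 i⟩) hD (y := y) (by
      rw [hbot, ← Z.tQ]
      exact hy) (by
      rw [hbot, ← Z.tQ]
      rw [volKO_eq] at hyO
      exact hyO) he he1 (by
      rw [← Z.tQ]
      exact hG) (fun _ _ => U) |U| (Eventually.of_forall fun k ω _ => le_rfl) hsub
    (Typ.mono (S := (zuz Z.W c w Z.h0 Z.hu Z.h1).l.sp) h1 (by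
      filter_upwards [hK2.1] with k hk ω _ h
      exact h.trans (mul_le_mul_of_nonneg_right (by linarith) (sq_nonneg _))))
    (Typ.mono (S := (zuz Z.W c w Z.h0 Z.hu Z.h1).l.sp) h2 (by
      filter_upwards [hK1.1] with k hk ω _ h
      exact h.2.trans (mul_le_mul_of_nonneg_right (by linarith) (by positivity))))
    (Typ.mono (S := (zuz Z.W c w Z.h0 Z.hu Z.h1).l.sp) h2 (by
      filter_upwards [hK1.1] with k hk ω _ h
      exact h.1.trans (mul_le_mul_of_nonneg_right (by linarith) (sq_nonneg _))))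
  rw [ul_mean, hbot, ← Z.tQ] at key
  rw [volKO_eq, volKO_eq]
  have key' : volCO (KZ (rbot S)) (cndR s (rbot S) (c + w * b)) s.Q = N - U -
    w * (N - volCO (KZ (rbot _)) (cndR Z.t (rbot _) b) Z.t.Q) := key
  rw [key']
  ring

/-- **ROW [EQ]** -/
theorem row_eq (hL : ROW_LEV) : ROW_EQ := by
  intro S N g r κ s c a w U Z b e hb0 hb1 he he1 D hD y hy hyO hG
  have h1 := zst_vol Z hb0 hb1 he he1 hD hy hyO hG
  have hcb : 0 ≤ c + w * b := add_nonneg Z.h0 (mul_nonneg Z.hu.le hb0)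
  have hcb1 : c + w * b ≤ 1 := by
    have h2 : w * b ≤ w := mul_le_of_le_one_right Z.hu.le hb1
    linarith [Z.h1]
  rw [(hL S N g r s).1 (c + w * b) hcb hcb1, (hL _ N κ r Z.t).1 b hb0 hb1]
  exact h1

end

end Pool.Agent.Helper37.FST
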