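import Pool.Agent.Helper37.FST.Zmx
import Pool.Agent.Helper55.INV.Rwz

/-! Rows ZEX and ZMX of FIRST, without hypotheses on the zooms (helper55's unit directions of zooms in rows, the tame
`Okc.zoom`). -/

set_option autoImplicit false

namespace Pool.Agent.Helper37.FST

open Pool.Agent.Helper29.MX Pool.Agent.Helper15.FST

/-- the field `zoom` -/
theorem ztam (N : ℕ) : ZTam N := fun _ _ h => h.zoom

/-- [INVO] (helper55) -/
theorem invo (N : ℕ) : INVO N := fun _ _ _ _ _ _ hi hR _ _ _ _ _ hK hF hO _ =>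
  Pool.Agent.Helper55.INV.inv_opt hR hK hF hO hi

/-- **ROW [ZEX]** -/
theorem zex (N : ℕ) : ROW_ZEX N := row_zex (invo N) (ztam N)

/-- **ROW [ZMX]** -/
theorem zmxp (M : ℕ) (hL : ROW_LEV) : ROW_ZMXP M := row_zmxp hL (invo (M + 1)) (ztam (M + 1))

end Pool.Agent.Helper37.FST
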