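import Pool.Agent.Helper37.FST.Z1
import Pool.Agent.Helper62.FST.Fl
import Pool.Agent.Helper77.Z2.Row

/-! Row FAF of `Helper62/FST/Fl`: members with small errors are in the class `FL`. -/

set_option autoImplicit false

namespace Pool.Agent.Helper37.FST

open Finset Filter Topology Matrix Pool.Agent.Helper69.RK Pool.Agent.Helper31.EC Pool.Agent.Helper31.EC.Sp
open Pool.Agent.Helper40.EL Pool.Agent.Helper89.LX Pool.Agent.Helper84.MT
open Pool.Agent.Helper49.MD Pool.Agent.Helper36.AM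
open Pool.Agent.Helper7.GZ (ZU Rows jac)
open Pool.Agent.Helper7.RD (PZ RW upz clz PLe_upz volC volCO pR roz)
open Pool.Agent.Helper49.KL (ZS w0s win0_chP lmd_abs)
open Pool.Agent.Helper81.CPY (chP up_chP ple_chP)
open Pool.Agent.Helper29.MX
open Pool.Agent.Helper94.SEL (tot num lmd BK)
open Pool.Agent.Helper62.FST (FA' ZmB zun ROW_Z1 ROW_Z2 ROW_FAF FL HZ ZL)

noncomputable section

variable {S : Sp} {N M : ℕ} {E : ℕ → ℕ} {ι : Type}

/-- ZOOMS OVER LITERAL LABELS in optimal flag rows are limits of zooms, with the windows -/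
theorem zs_of_rw_win [Finite ι] {s : MSys S N E ι} {R W : Rsl S} (z : RW s N) (hl : z.Z.l = Lab.ofZ W)
    (hk : KLb s R z.Z.c z.Z.l) {lam : Fin N → ℝ} (hf : Flg z lam) (hv : (N : ℝ) - ∑ j, lam j ≤ volKO s R z.Z.c)
    {D1 : ℕ} (hD : z.D ≤ D1) {Λ : ℝ} (hΛ : z.Z.c * (z.κ + 1) - z.Z.u ≤ Λ) :
    ∃ (t : MSys (S.chg W z.Z.u z.Z.hu) N (lin z.κ) ι) (p : ∀ k, (S.F k).Ω → Fin N → MvPolynomial (Fin N) ℝ),
      ZS s R W z.Z.c z.Z.u z.Z.hu t p D1 Λ lam ∧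
      (∀ Y : (∀ S : Sp, MSys S N (lin z.κ) ι → Rsl S → Prop), Y z.Z.sp z.sys (rover z.Z.l z.Z.u z.Z.hu R) →
        Y (S.chg W z.Z.u z.Z.hu) t R) ∧
      ∀ b : ℝ, 0 ≤ b → ∀ i, PLe ((t.lf i).win b) (chP W z.Z.u z.Z.hu ((s.lf i).win (z.Z.c + z.Z.u * b))) := by
  have hgr := Pool.Agent.Helper70.CPW.flg_gram hf hk hv
  have hge := z.win_ge
  have hle : ∀ (i : ι) {b : ℝ}, 0 ≤ b → PLe ((z.sys.lf i).win b) (z.upz ((s.lf i).win (z.Z.c + z.Z.u * b))) :=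
    fun i b hb => z.win_le i hb
  obtain ⟨⟨l, c, u, h0, hu, h1⟩, hc, dm, D, Λ', Rw, X, hX, κ, hκ1, he, hκ⟩ := z
  have hl' : l = Lab.ofZ W := hl
  subst hl'
  have hΛ' : Λ' ≤ Λ := by
    have e1 : Λ' + u ≤ c * (κ + 1) := hκ
    have e2 : c * (κ + 1) - u ≤ Λ := hΛ
    linarith
  refine ⟨RW.sys ⟨⟨Lab.ofZ W, c, u, h0, hu, h1⟩, hc, dm, D, Λ', Rw, X, hX, κ, hκ1, he, hκ⟩, Rw.p, ?_,
    fun Y hY => hY, fun b hb i => ?_⟩
  swap
  · have h2 := hle i hb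
    have e1 : upz (⟨Lab.ofZ W, c, u, h0, hu, h1⟩ : ZU S) ((s.lf i).win (c + u * b)) =
      chP W u hu ((s.lf i).win (c + u * b)) := up_chP u hu _
    have h3 : PLe (S := S.chg W u hu)
      (((RW.sys ⟨⟨Lab.ofZ W, c, u, h0, hu, h1⟩, hc, dm, D, Λ', Rw, X, hX, κ, hκ1, he, hκ⟩).lf i).win b)
      (upz (⟨Lab.ofZ W, c, u, h0, hu, h1⟩ : ZU S) ((s.lf i).win (c + u * b))) := h2
    rw [e1] at h3
    exact h3
  exact {
    h0 := h0
    h1 := h1
    deg := fun k ω j => (Rw.deg k ω j).trans hD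
    tri := hf.tri
    klb := hk
    fn := Rw.fn
    cf := by
      obtain ⟨K, hK, h⟩ := Rw.cf
      refine ⟨K, hK, ?_⟩
      filter_upwards [h, hK.1] with k hk hK0 ω hω j a
      refine (hk ω hω j a).trans (mul_le_mul_of_nonneg_left ?_ hK0)
      exact Real.rpow_le_rpow_of_exponent_le (by norm_num) (mul_le_mul_of_nonneg_right hΛ' (S.F k).pos.le)
    bd := Rw.bd
    lp := by
      obtain ⟨K, hK, h⟩ := Rw.lp (fun _ => 1) (S.Sub_const zero_le_one)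
      refine ⟨K, hK, h.mono (Eventually.of_forall fun k ω _ hh y hy j => hh y (fun i => ?_) j)⟩
      rw [one_mul]
      exact hy i
    hX := hX
    ex := fun e he => (hf.ex e he).mono (Eventually.of_forall fun k ω _ hh j => (hh j).1)
    hi := hgr
    w0 := fun i => by
      have h2 := hge i 0
      rw [mul_zero, add_zero] at h2
      have e1 : upz (⟨Lab.ofZ W, c, u, h0, hu, h1⟩ : ZU S) ((s.lf i).win c) = chP W u hu ((s.lf i).win c) :=
        up_chP u hu _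
      obtain ⟨t, ht⟩ : ∃ t : MSys (S.chg W u hu) N (lin κ) ι,
        t = RW.sys ⟨⟨Lab.ofZ W, c, u, h0, hu, h1⟩, hc, dm, D, Λ', Rw, X, hX, κ, hκ1, he, hκ⟩ := ⟨_, rfl⟩
      have h3 : PLe (S := S.chg W u hu) (upz (⟨Lab.ofZ W, c, u, h0, hu, h1⟩ : ZU S) ((s.lf i).win c))
        ((t.lf i).win 0) := by
        rw [ht]
        exact h2
      have e2 : (t.lf i).win 0 = chP W u hu (fun k => fc (w0s t i k)) := win0_chP t i
      rw [e1, e2] at h3
      have h4 := (ple_chP (S := S) (Z := W) (e := u) (he := hu)).1 h3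
      rw [ht] at h4
      exact h4 }

/-- the zooms of members are limits of zooms -/
theorem zl_of_zmb {C : MCl (M + 1)} {v e0 g r : ℕ} {q c u b1 K ε φ : ℝ} {κ D1 : ℕ}
    {s : MSys S (M + 1) (lin g) (Fin r)} {W₀ W : Rsl S} {z : RW s (M + 1)} (hz : ZmB C v e0 c u b1 κ D1 s W₀ z W)
    (hdf : AllE (fun _ (t : MSys _ (M + 1) (lin z.κ) (Fin r)) _ => ∀ b : ℝ, 0 ≤ b → b ≤ 1 →
      H (t.Q.dg b) ≤ (M + q) * b + K) z.Z.sp z.sys (rover z.Z.l z.Z.u z.Z.hu (rbot S)))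
    (hε : K ≤ ε) (hs : |∑ j, lmd s (rbot S) c j - φ| ≤ ε)
    (hv : ((M + 1 : ℕ) : ℝ) - ∑ j, lmd s (rbot S) c j ≤ volKO s (rbot S) c) :
    HZ C v q c u φ κ D1 (c * (κ + 1) - u) ε S s := by
  obtain ⟨hl, hle, hc, hu, hκ, hD, hk, hf, ho, ht, hb, hn⟩ := hz
  subst hc hu hκ
  obtain ⟨t, p, h1, h2, h3⟩ := zs_of_rw_win z hl hk hf hv hD (Λ := z.Z.c * (z.κ + 1) - z.Z.u) le_rfl
  refine ⟨W, z.Z.hu, t, p, lmd s (rbot S) z.Z.c, ?_⟩
  exact {
    zs := h1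
    lb := fun j => by
      have h4 := lmd_abs s (rbot S) z.Z.c j
      push_cast at h4
      linarith
    sum := hs
    cl := h2 (fun S t _ => C S z.κ r t) hb.cl.1
    inv := h2 (fun S t _ => Inv v t) hb.cl.2.2
    win := fun b hb0 _ i => h3 b hb0 i
    dfc := h2 (fun S t R => AllE (fun _ (t : MSys _ (M + 1) (lin z.κ) (Fin r)) _ => ∀ b : ℝ, 0 ≤ b → b ≤ 1 →
      H (t.Q.dg b) ≤ (M + q) * b + ε) S t R) (fun T p A hA b h0 h5 => (hdf T p A hA b h0 h5).trans (by linarith)) }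

/-- **ROW [FAF]** -/
theorem faf (M : ℕ) : ROW_FAF M := by
  intro A C hM hC hst v hsto m g r e0 q w0 hg hr hq0 hq1 hw0
  have hex : ∀ c : ℚ, ∃ (κ D1 : ℕ) (K : ℝ), g ≤ κ ∧ 0 ≤ K ∧ ((0 : ℝ) < c → w0 * c < 1 →
      ∀ ε : ℝ, 0 ≤ ε → ε < zun w0 c / 4 → ∀ (S : Sp) (s : MSys S (M + 1) (lin g) (Fin r)),
        FA' (C m) v g r e0 q w0 ε S s → HZ (C m) v q c (zun w0 c) (w0 * c) κ D1 (c * (κ + 1) - zun w0 c) (K * ε) S s) := by
    intro c
    by_cases hc : (0 : ℝ) < c ∧ w0 * c < 1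
    swap
    · exact ⟨g, 0, 0, le_rfl, le_rfl, fun h1 h2 => absurd ⟨h1, h2⟩ hc⟩
    obtain ⟨κ, D1, hκ1, hκg, hz⟩ := z1 M A C hM hC hst v hsto m g r e0 w0 c hg hr hw0 hc.1 hc.2
    obtain ⟨K, hK, hz2⟩ := Pool.Agent.Helper77.Z2.row_z2 M A C hM hC hst v hsto m g r e0 q w0 c hg hr hq0 hq1 hw0
      hc.1 hc.2
    refine ⟨κ, D1, max K 1, hκg, hK.le.trans (le_max_left _ _), fun hc0 hwc ε hε hε4 S s hF => ?_⟩
    obtain ⟨W, hW⟩ := hF.inf
    have hε4' : 4 * ε < zun w0 c := by linarith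
    have hwe : w0 * c < 1 - ε := by
      unfold zun at hε4
      linarith
    obtain ⟨z, W', hzm⟩ := hz ε hε hε4' S s hF.bk hF.tot (W c) (hW c hc0 hwe).1
    have hdf := hz2 κ D1 ε hκ1 hε hε4' S s hF.bk hF.tot (W c) (hW c hc0 hwe).2 z W' hzm
    have hKe : K * ε ≤ max K 1 * ε := mul_le_mul_of_nonneg_right (le_max_left _ _) hε
    have h1e : ε ≤ max K 1 * ε := by
      have := mul_le_mul_of_nonneg_right (le_max_right K 1) hε
      linarith
    have hsl := Pool.Agent.Helper49.KL.sum_lmd' s (rbot S) (c : ℝ)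
    have hsum : ∑ j, lmd s (rbot S) c j = tot s (rbot S) c := by
      unfold tot
      linarith
    refine zl_of_zmb hzm hdf hKe ?_ (le_of_eq hsl)
    rw [hsum]
    exact (hF.tot c hc0.le hwe).trans h1e
  choose κ D1 K hκ hK hh using hex
  refine ⟨κ, D1, K, hκ, hK, fun ε hε S s hF => ?_⟩
  have hw00 : 0 < w0 := by linarith
  exact {
    cl := hF.bk.cl
    dim := hF.bk.dim
    pol := hF.bk.pol
    tot := fun T p A hA c hc hwc => by
      have h1 := hF.tot c hc hwc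
      have hb0 : c < (1 - ε) / w0 := by
        rw [lt_div_iff₀ hw00]
        linarith [mul_comm c w0]
      have h2 := hF.bk.rig T p A hA c hc hb0 (M + 1) le_rfl
      have hNX := Pool.Agent.Helper84.SEL.numx M
      have h3 : tot (s.im p A hA) (rbot S : Rsl (Sp.im p A)) c = tot s (rbot S) c :=
        (hNX.last (Sp.im p A) _ r (s.im p A hA) (rbot S : Rsl (Sp.im p A)) c).symm.trans
          (h2.trans (hNX.last S _ r s (rbot S) c))
      rw [← h3] at h1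
      exact h1
    dfc := fun T p A hA b h0 h1 => hF.dfc T p A hA b h0 h1
    zm := fun c hc0 hwc hεc => hh c hc0 hwc ε hε hεc S s hF }

end

end Pool.Agent.Helper37.FST
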