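import Pool.Agent.Helper37.FST.Fin
import Pool.Agent.Helper62.FST.St
import Pool.Agent.Helper71.VIS.Trx
import Pool.Agent.Helper84.SEL.Numx

/-! Row Z1 of `Helper62/FST/St`: tame optimal zooms of rigid stable systems with linear total exponent, over literal labels
finer than a given one. -/

set_option autoImplicit false

namespace Pool.Agent.Helper37.FST

open Finset Filter Topology Matrix Pool.Agent.Helper69.RK Pool.Agent.Helper31.EC Pool.Agent.Helper31.EC.Sp
open Pool.Agent.Helper40.EL Pool.Agent.Helper89.LX Pool.Agent.Helper84.MT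
open Pool.Agent.Helper36.AM
open Pool.Agent.Helper29.MX
open Pool.Agent.Helper7.RD (RW)
open Pool.Agent.Helper94.SEL (num tot lmd BK)
open Pool.Agent.Helper4.FRK (lamK)
open Pool.Agent.Helper62.FST (ZmB zun ROW_Z1)

noncomputable section

/-- **ROW [Z1]** -/
theorem z1 (M : ℕ) : ROW_Z1 M := by
  intro A C _ hC hst v _ m g r e0 w0 c hg _ hw0 hc hwc
  obtain ⟨κ, D1, hκ1, hκg, hz⟩ := exists_tz (invo (M + 1)) (ztam (M + 1)) hC hst g hg m r hc
  refine ⟨κ, D1, hκ1, hκg, fun ε hε hε4 S s hB htot W₀ hW₀ => ?_⟩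
  obtain ⟨u, hu⟩ : ∃ u : ℝ, u = zun w0 c := ⟨_, rfl⟩
  rw [← hu] at hε4 ⊢
  have hu2 : w0 * c = 1 - 2 * u := by
    rw [hu]
    unfold zun
    ring
  have hu0 : 0 < u := by linarith
  have hw00 : 0 < w0 := by linarith
  have hcw : c ≤ w0 * c := le_mul_of_one_le_left hc.le hw0
  have ha0 : (0 : ℝ) < 1 - u := by linarith
  have ha1 : 1 - u ≤ 1 := by linarith
  have hca : c < 1 - u := by linarith
  obtain ⟨hCs, hPt, hInv⟩ := hB.cl
  have hb0 : c < (1 - ε) / w0 := by
    rw [lt_div_iff₀ hw00]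
    linarith [mul_comm c w0]
  have htc := htot c hc.le (by linarith)
  rw [abs_le] at htc
  have hNX := Pool.Agent.Helper84.SEL.numx M
  have hac : (1 - u) * (c / (1 - u)) = c := mul_div_cancel₀ c ha0.ne'
  have hc1 : c / (1 - u) ≤ 1 := (div_le_one ha0).2 hca.le
  -- the numbers of the truncation
  have htr : ∀ (T : Sp) (p : Pj T S) (B : ∀ k, (T.F k).Ω → Prop) (hB' : 0 < ul (T.pr B)) (j : ℕ) (hj : j ≤ M + 1),
      num ((s.im p B hB').trn (1 - u) ha0 ha1) (rbot _) hj (c / (1 - u)) = num s (rbot S) hj c / (1 - u) := by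
    intro T p B hB' j hj
    have hr1 : AllE (fun _ t R' => ∀ (j : ℕ) (hj : j ≤ M + 1), num t R' hj c = num s (rbot S) hj c) S s (rbot S) :=
      fun T q A hA j hj => hB.rig T q A hA c hc.le hb0 j hj
    have hr2 := Pool.Agent.Helper52.MW.AllE_im hr1 p B hB'
    have hr3 : ∀ (j : ℕ) (hj : j ≤ M + 1), num (s.im p B hB') (rbot S : Rsl (Sp.im p B)) hj c = num s (rbot S) hj c :=
      hr1 T p B hB'
    have ht1 : tot (s.im p B hB') (rbot S : Rsl (Sp.im p B)) c = tot s (rbot S) c := by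
      exact (hNX.last (Sp.im p B) _ r (s.im p B hB') (rbot S : Rsl (Sp.im p B)) c).symm.trans
        ((hr3 (M + 1) le_rfl).trans (hNX.last S _ r s (rbot S) c))
    have h1 := Pool.Agent.Helper71.VIS.num_trn hNX (s.im p B hB') (rbot S : Rsl (Sp.im p B)) (pt_bot (s.im p B hB'))
      ha0 ha1 (div_pos hc ha0).le hc1 (by
        rw [hac, ht1]
        linarith) (by
        rw [hac]
        exact fun T' q A hA j hj => (hr2 T' q A hA j hj).trans (hr3 j hj).symm) j hj
    rw [hac, hr3 j hj] at h1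
    exact h1
  obtain ⟨P, hP⟩ : ∃ P : ℕ → ℝ, ∀ j (hj : j ≤ M + 1), P j = j - num s (rbot S) hj c / (1 - u) := by
    classical
    exact ⟨fun j => if hj : j ≤ M + 1 then j - num s (rbot S) hj c / (1 - u) else 0, fun j hj => dif_pos hj⟩
  obtain ⟨z, W, hW, hle, ec, eu, eκ, eD, hK, hF, hO, hT, hC', hI2, hlit, hself⟩ :=
    hz v S s hCs hInv c (1 - u) u P ha0 ha1 le_rfl hca hu0 (by linarith) (fun T p B hB' j hj => by
      have h1 := htr T p B hB' j hj
      unfold num at h1
      rw [hP j hj]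
      unfold num
      linarith) W₀ hW₀
  have hlam : (fun j => (1 - u) * lamK (s.trn (1 - u) ha0 ha1) (rbot S) (c / (1 - u)) j) = lmd s (rbot S) c := by
    funext j
    have e1 := hself _ (Nat.succ_le_of_lt j.2)
    have e2 := hself _ j.2.le
    rw [hP _ (Nat.succ_le_of_lt j.2)] at e1
    rw [hP _ j.2.le] at e2
    have e3 : (1 - u) * (1 - (((j.val + 1 : ℕ) : ℝ) - num s (rbot S) (Nat.succ_le_of_lt j.2) c / (1 - u) -
        ((j.val : ℝ) - num s (rbot S) j.2.le c / (1 - u)))) = lmd s (rbot S) c j := by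
      unfold lmd
      push_cast
      field_simp
      ring
    rw [← e3, ← e1, ← e2]
  rw [hlam] at hF hO
  have hbd1 : 0 < 1 - 2 * ε / u := by
    rw [sub_pos, div_lt_one hu0]
    linarith
  have hbd2 : 2 * ε / u * u = 2 * ε := div_mul_cancel₀ _ hu0.ne'
  have hb10 : 0 < (1 - 2 * ε / u) / w0 := div_pos hbd1 hw00
  have hb11 : (1 - 2 * ε / u) / w0 ≤ 1 := by
    rw [div_le_one hw00]
    have : 0 ≤ 2 * ε / u := by positivity
    linarith
  have hbw : ∀ b : ℝ, b < (1 - 2 * ε / u) / w0 → w0 * (u * b) < u - 2 * ε := by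
    intro b hb
    rw [lt_div_iff₀ hw00] at hb
    have h1 := mul_lt_mul_of_pos_left hb hu0
    have h2 : u * (1 - 2 * ε / u) = u - 2 * ε := by
      rw [mul_sub, mul_one, mul_comm u (2 * ε / u), hbd2]
    rw [h2] at h1
    linarith [mul_comm u (b * w0), mul_assoc w0 u b]
  have hbk := Pool.Agent.Helper63.ZMX.bk_zoom_of hst hPt hB.dim hW hK (by
    rw [ec]
    exact hF) hlit hC' hI2 hb10 hb11 (fun T q A hA c' h1 h2 j hj => by
      rw [ec] at h1 h2
      rw [eu] at h2
      refine hB.rig T q A hA c' (hc.le.trans h1) ?_ j hj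
      rw [lt_div_iff₀ hw00]
      have h3 : u * ((1 - 2 * ε / u) / w0) * w0 = u - 2 * ε := by
        rw [mul_assoc, div_mul_cancel₀ _ hw00.ne', mul_sub, mul_one, mul_comm u (2 * ε / u), hbd2]
      have h4 := mul_lt_mul_of_pos_right h2 hw00
      rw [add_mul, h3] at h4
      linarith [mul_comm c w0]) (fun b h1 h2 => by
      rw [ec, eu]
      have h3 := hbw b h2
      have h4 := htot (c + u * b) (add_nonneg hc.le (mul_nonneg hu0.le h1)) (by
        rw [mul_add]
        linarith)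
      rw [abs_le, mul_add] at h4
      linarith)
  refine ⟨z, W, hW, hle, ec, eu, eκ, eD, hK, hF, hO, hT, hbk.1, fun b h1 h2 j hj => ?_⟩
  have h3 := hbk.2 b h1 h2 j hj
  have h4 : (num s (rbot S) hj (z.Z.c + z.Z.u * b) - num s (rbot S) hj z.Z.c) / z.Z.u =
      (num s (rbot S) hj (c + u * b) - num s (rbot S) hj c) / u := by rw [ec, eu]
  exact h3.trans h4

end

end Pool.Agent.Helper37.FST
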