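import Pool.Agent.Helper15.FST.St
import Pool.Agent.Helper37.OKD.Jv
import Pool.Agent.Helper63.ZMX.Eq
import Pool.Agent.Helper7.RD.Wm

/-! Zooms in optimal flag rows over literal type-labels as zooms of FIRST (`Zst` of `Helper15/FST/St`). -/

set_option autoImplicit false

namespace Pool.Agent.Helper37.FST

open Finset Filter Topology Matrix Pool.Agent.Helper69.RK Pool.Agent.Helper31.EC Pool.Agent.Helper31.EC.Sp
open Pool.Agent.Helper40.EL Pool.Agent.Helper89.LX Pool.Agent.Helper84.MT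
open Pool.Agent.Helper29.MX
open Pool.Agent.Helper7.GZ (ZU Rows jac)
open Pool.Agent.Helper7.RD (PZ RW upz clz)
open Pool.Agent.Helper70.CPW (zuz WinR)
open Pool.Agent.Helper93.FST (TamP)
open Pool.Agent.Helper15.FST

noncomputable section

variable {S : Sp} {N : ℕ} {E : ℕ → ℕ} {ι : Type}

theorem prod_two (lam : Fin N → ℝ) (x n : ℝ) : (∏ j : Fin N, (2 : ℝ) ^ ((lam j + x) * n)) ^ 2 =
    2 ^ (2 * N * x * n) * 2 ^ (2 * (∑ j, lam j) * n) := by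
  rw [← Real.rpow_sum_of_pos (by norm_num), ← Real.rpow_natCast, ← Real.rpow_mul (by norm_num), ← Finset.sum_mul,
    Finset.sum_add_distrib, Finset.sum_const, Finset.card_univ, Fintype.card_fin, nsmul_eq_mul,
    ← Real.rpow_add (by norm_num)]
  congr 1
  push_cast
  ring

/-- the determinants of flag rows -/
theorem flg_det {s : MSys S N E ι} {z : RW s N} {lam : Fin N → ℝ} (hF : Flg z lam) :
    ∃ K : ℕ → ℝ, S.Sub K ∧ Typ (S := z.Z.l.sp) (fun k (ω : (z.Z.l k).T.Ω) =>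
      2 ^ (2 * (∑ j, lam j) * (S.F k).n) ≤ K k * (jac (z.R.p k ω) (s.Q.v k ((z.Z.l k).p.π ω))).det ^ 2 ∧
      (jac (z.R.p k ω) (s.Q.v k ((z.Z.l k).p.π ω))).det ^ 2 ≤ K k * 2 ^ (2 * (∑ j, lam j) * (S.F k).n)) := by
  obtain ⟨e, he, he0, hTy⟩ := Pool.Agent.Helper3.LF.typ_diag (S := z.Z.l.sp) (fun e k (ω : (z.Z.l k).T.Ω) =>
      ∀ j, 2 ^ ((lam j - e) * (S.F k).n) ≤ |MvPolynomial.eval (s.Q.v k ((z.Z.l k).p.π ω))
        (MvPolynomial.pderiv j (z.R.p k ω j))| ∧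
      |MvPolynomial.eval (s.Q.v k ((z.Z.l k).p.π ω)) (MvPolynomial.pderiv j (z.R.p k ω j))| ≤
        2 ^ ((lam j + e) * (S.F k).n)) hF.ex
  have hs : S.Sub fun k => (2 : ℝ) ^ ((2 * N * e k) * (S.F k).n) := by
    refine Pool.Agent.Helper3.LF.Sub_pow_two ?_ (Eventually.of_forall fun k => by have := he0 k; positivity)
    have h1 := he.const_mul (2 * (N : ℝ))
    rw [mul_zero] at h1
    exact h1
  refine ⟨fun k => (2 : ℝ) ^ ((2 * N * e k) * (S.F k).n), hs, ?_⟩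
  refine Typ.mono (S := z.Z.l.sp) hTy (Eventually.of_forall fun k => ?_)
  intro (ω : (z.Z.l k).T.Ω) _ h
  have h' : ∀ j, 2 ^ ((lam j - e k) * (S.F k).n) ≤ |MvPolynomial.eval (s.Q.v k ((z.Z.l k).p.π ω))
        (MvPolynomial.pderiv j (z.R.p k ω j))| ∧
      |MvPolynomial.eval (s.Q.v k ((z.Z.l k).p.π ω)) (MvPolynomial.pderiv j (z.R.p k ω j))| ≤
        2 ^ ((lam j + e k) * (S.F k).n) := h
  rw [Pool.Agent.Helper37.OKD.det_tri (hF.tri k ω) (s.Q.v k ((z.Z.l k).p.π ω)), ← sq_abs, Finset.abs_prod]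
  constructor
  · have h1 : (∏ j : Fin N, (2 : ℝ) ^ ((lam j + -e k) * (S.F k).n)) ^ 2 ≤
        (∏ j, |MvPolynomial.eval (s.Q.v k ((z.Z.l k).p.π ω)) (MvPolynomial.pderiv j (z.R.p k ω j))|) ^ 2 :=
      pow_le_pow_left₀ (Finset.prod_nonneg fun i _ => by positivity)
        (Finset.prod_le_prod (fun i _ => by positivity) fun i _ => (by
          rw [← sub_eq_add_neg]
          exact (h' i).1)) 2
    rw [prod_two] at h1
    have h2 : (2 : ℝ) ^ (2 * (∑ j, lam j) * (S.F k).n) =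
        2 ^ ((2 * N * e k) * (S.F k).n) * (2 ^ (2 * N * -e k * (S.F k).n) * 2 ^ (2 * (∑ j, lam j) * (S.F k).n)) := by
      rw [← Real.rpow_add (by norm_num), ← Real.rpow_add (by norm_num)]
      congr 1
      ring
    rw [h2]
    exact mul_le_mul_of_nonneg_left h1 (by positivity)
  · rw [← prod_two]
    exact pow_le_pow_left₀ (Finset.prod_nonneg fun i _ => abs_nonneg _)
      (Finset.prod_le_prod (fun i _ => abs_nonneg _) fun i _ => (h' i).2) 2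

/-- the Gram determinants of optimal flag rows -/
theorem flg_dom [Finite ι] {s : MSys S N E ι} {R : Rsl S} (hR : Pt s R) {z : RW s N} {lam : Fin N → ℝ}
    (hK : KLb s R z.Z.c z.Z.l) (hF : Flg z lam) (hO : OptLam z R lam) :
    ∃ K : ℕ → ℝ, S.Sub K ∧ Typ (S := z.Z.l.sp) (fun k (ω : (z.Z.l k).T.Ω) =>
      (1 + (jac (z.R.p k ω) (s.Q.v k ((z.Z.l k).p.π ω))).transpose *
        jac (z.R.p k ω) (s.Q.v k ((z.Z.l k).p.π ω))).det ≤
          K k * (jac (z.R.p k ω) (s.Q.v k ((z.Z.l k).p.π ω))).det ^ 2) := by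
  obtain ⟨K, hK1, hT⟩ := Pool.Agent.Helper37.OKD.jac_inv_le hR hK hF hO
  refine ⟨fun k => (1 + N * (N * K k ^ 2)) ^ N, Pool.Agent.Helper63.ZMX.sub_det S hK1 N, ?_⟩
  refine Typ.mono (S := z.Z.l.sp) (Typ.and (S := z.Z.l.sp) hT (hF.ex 1 one_pos)) ?_
  filter_upwards [hK1.1] with k hk
  intro (ω : (z.Z.l k).T.Ω) _ h
  refine Pool.Agent.Helper63.ZMX.det_gram_le _ ?_ fun r i => (h.1 r i).trans ?_
  · rw [Pool.Agent.Helper37.OKD.det_tri (hF.tri k ω)]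
    refine Finset.prod_ne_zero_iff.mpr fun j _ hj => ?_
    have h1 := (h.2 j).1
    rw [hj, abs_zero] at h1
    exact absurd h1 (not_le.2 (by positivity))
  · refine mul_le_of_le_one_right hk ?_
    rw [← S.dl_zero k]
    exact S.dl_anti z.Z.h0 k

theorem pt_bot (s : MSys S N E ι) : Pt s (rbot S) := by
  refine Eventually.of_forall fun k ω ω' _ _ _ h => ?_
  have h1 : ω = ω' := h
  rw [h1]

/-- A ZOOM IN OPTIMAL FLAG ROWS over a literal type-label, as a zoom of FIRST -/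
theorem exists_zst {g r : ℕ} {s : MSys S N (lin g) (Fin r)} (z : RW s N) {κ : ℕ} {c a w U : ℝ} {W : Rsl S}
    (hW : z.Z.l = Lab.ofZ W) (hc : z.Z.c = c) (hw : z.Z.u = w) (hκ : z.κ = κ) {lam : Fin N → ℝ}
    (hK : KLb s (rbot S) z.Z.c z.Z.l) (hF : Flg z lam) (hO : OptLam z (rbot S) lam) (hT : Tam z a) (hca : c ≤ a)
    (haw : a + w ≤ 1) (hU : ∑ j, lam j = U) :
    ∃ Z : Zst s κ c a w U, Z.W = W ∧ ∀ P : (∀ (S : Sp) (κ : ℕ), MSys S N (lin κ) (Fin r) → Rsl S → Prop),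
      P z.Z.sp z.κ z.sys (rover z.Z.l z.Z.u z.Z.hu (rbot S)) → P ((Lab.ofZ Z.W).ovr w Z.hu) κ Z.t (rbot _) := by
  have h1 := flg_dom (pt_bot s) hK hF hO
  have h2 := flg_det hF
  have h3 : ∀ (b : ℝ) (i : Fin r), 0 ≤ b → b ≤ 1 →
      PLe ((z.sys.lf i).win b) (z.Z.l.up z.Z.u z.Z.hu ((s.lf i).win (z.Z.c + z.Z.u * b))) ∧
      PLe (z.Z.l.up z.Z.u z.Z.hu ((s.lf i).win (z.Z.c + z.Z.u * b))) ((z.sys.lf i).win b) :=
    fun b i h0 _ => ⟨z.win_le i h0, z.win_ge i b⟩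
  have h4 : TLb s z.Z.c z.Z.l := (tlb_iff s _ _).mp hK
  rw [hU] at h2
  clear hU hO hF hK
  subst hκ
  obtain ⟨⟨l, c', u', h0, hu, h5⟩, hcp, dm, D, Λ, Rw, X, hX, κz, hκ1, hek, hκ⟩ := z
  dsimp only at hW hc hw
  subst hW hc hw
  exact ⟨⟨W, h0, hu, h5, ⟨D, Λ, Rw, X, hX⟩,
    (⟨⟨Lab.ofZ W, c', u', h0, hu, h5⟩, hcp, dm, D, Λ, Rw, X, hX, κz, hκ1, hek, hκ⟩ : RW s N).sys,
    rfl, h3, h4, hca, haw, hT, h1, h2⟩, rfl, fun P hP => hP⟩

end

end Pool.Agent.Helper37.FST
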