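import Pool.Agent.Helper37.FST.Zc
import Pool.Agent.Helper4.FRK.Low
import Pool.Agent.Helper48.ROK.Att
import Pool.Agent.Helper49.KL.Lit
import Pool.Agent.Helper71.VIS.Trk
import Pool.Agent.Helper3.ENT.Ent

/-! Row ZEX of `Helper15/FST/St`: zooms of systems with constant prefix volumes at the level `a`. -/

set_option autoImplicit false

namespace Pool.Agent.Helper37.FST

open Finset Filter Topology Matrix Pool.Agent.Helper69.RK Pool.Agent.Helper31.EC Pool.Agent.Helper31.EC.Sp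
open Pool.Agent.Helper40.EL Pool.Agent.Helper89.LX Pool.Agent.Helper84.MT
open Pool.Agent.Helper49.MD Pool.Agent.Helper36.AM
open Pool.Agent.Helper3.LF (Mon)
open Pool.Agent.Helper29.MX
open Pool.Agent.Helper7.RD (RW volC volCO)
open Pool.Agent.Helper87.NSL (cndR KnS)
open Pool.Agent.Helper4.FRK (Vpf vpf_of vP vP_eq thv thv_vP thv_le lamK grb_zero sz_top exists_rwa Sz)
open Pool.Agent.Helper15.FST

noncomputable section

variable {S : Sp} {N : ℕ} {E : ℕ → ℕ} {ι : Type}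

/-- [INVO] (helper55): unit directions of zooms in optimal flag rows, both alternatives of `OptLam` -/
def INVO (N : ℕ) : Prop := ∀ (v : ℕ) (S : Sp) (g r : ℕ) (s : MSys S N (lin g) (Fin r)) (R : Rsl S), Inv v s →
  Pt s R → ∀ (z : RW s N) (lam : Fin N → ℝ) (W : Rsl S), 0 < z.Z.c → z.Z.l = Lab.ofZ W → KLb s R z.Z.c z.Z.l →
    Flg z lam → OptLam z R lam → Pt z.sys (rover z.Z.l z.Z.u z.Z.hu R) → Inv v z.sys

/-- `Okc.zoom` with tame rows -/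
def ZTam (N : ℕ) : Prop := ∀ (A : MCl N) (C : ℕ → MCl N), Okc N A C → ∀ m g r D0, ∃ D1 : ℕ,
  ∀ S (s : MSys S N (lin g) (Fin r)), C m S g r s → ∀ R : Rsl S, Pt s R → ∀ (z : RW s N) (lam : Fin N → ℝ) (W : Rsl S),
    z.D ≤ D0 → z.Z.l = Lab.ofZ W → KLb s R z.Z.c z.Z.l → Flg z lam → OptLam z R lam →
      ∃ (z' : RW s N) (W' : Rsl S), z'.Z.l = Lab.ofZ W' ∧ (∀ᶠ k in UF, W' k ≤ W k) ∧
        Nul S (fun k => h (fc (W' k)) (fc (W k))) ∧ z'.Z.c = z.Z.c ∧ z'.Z.u = z.Z.u ∧ z'.κ = z.κ ∧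
        KLb s R z.Z.c z'.Z.l ∧ Flg z' lam ∧ C m z'.Z.sp z'.κ r z'.sys ∧
          (Pt z.sys (rover z.Z.l z.Z.u z.Z.hu R) → Pt z'.sys (rover z'.Z.l z'.Z.u z'.Z.hu R)) ∧ z'.D ≤ D1 ∧
            ∀ a : ℝ, z.Z.c ≤ a → (∀ j, lam j ≤ a) → Tam z a → Tam z' a

/-- a LITERAL maximal label -/
theorem exists_lit_kap [Finite ι] (s : MSys S N E ι) (c : ℝ) : ∃ W : Rsl S, s.IsKap c (Lab.ofZ W) := by
  obtain ⟨l, hl⟩ := s.exists_kap c
  obtain ⟨σ, -, h2, -⟩ := Pool.Agent.Helper49.KL.exists_secK (A := s.cnd c) (R := rbot S) (l := l)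
    ⟨hl.1, kz_bot l, fun l' h _ => hl.2 l' h⟩ (i₀ := none) (pcd_Bd s.Q) (fun _ _ => 0) (fun _ _ => le_rfl) (by
      simp only [mul_zero, Finset.sum_const_zero]
      exact tendsto_const_nhds)
  exact ⟨σ.Z, h2.1, fun l' h => h2.2.2 l' h (kz_bot l')⟩

/-- a finer label is maximal -/
theorem kap_finer {s : MSys S N E ι} {c : ℝ} {W W' : Rsl S} (h : s.IsKap c (Lab.ofZ W))
    (hW : ∀ᶠ k in UF, W' k ≤ W k) (h' : s.DMc c (Lab.ofZ W')) : s.IsKap c (Lab.ofZ W') := by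
  refine ⟨h', fun l' hl' => (h.2 l' hl').trans ?_⟩
  refine ul_mono (h.1.ub (i := none) (pcd_Bd s.Q)) (h'.ub (i := none) (pcd_Bd s.Q)) ?_
  filter_upwards [hW] with k hk
  refine div_le_div_of_nonneg_right ?_ (S.F k).pos.le
  rw [Pool.Agent.Helper33.LIT.ofZ_info, Pool.Agent.Helper33.LIT.ofZ_info]
  exact H_mono (fc_mono hk)

/-- one degree for the structure theorems of all smaller dimensions -/
theorem stu_deg (hst : ∀ m, m < N → STu m) (g : ℕ) : ∃ D₃ : ℕ, ∀ D, D₃ ≤ D → ∀ j, j < N → ∀ r, STm D j (lin g) (Fin r) := by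
  have h1 : ∀ j : Fin N, ∃ D₁ : ℕ, ∀ D, D₁ ≤ D → ∀ r : ℕ, STm D j.val (lin g) (Fin r) := fun j => hst j.val j.2 g
  choose D₁ h2 using h1
  refine ⟨∑ j, D₁ j, fun D hD j hj r => h2 ⟨j, hj⟩ D ?_ r⟩
  exact (Finset.single_le_sum (f := D₁) (fun i _ => Nat.zero_le _) (Finset.mem_univ (⟨j, hj⟩ : Fin N))).trans hD

/-- THE TAME ZOOM in optimal flag rows of the level `a`, over a literal label finer than a given one; the bound of the
degree depends on `g`, the lower bound of the window and the dimension only -/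
theorem exists_tz {N : ℕ} (hI : INVO N) (hZ : ZTam N) {A : MCl N} {C : ℕ → MCl N} (hC : Okc N A C)
    (hst : ∀ m, m < N → STu m) (g : ℕ) (hg : 1 ≤ g) (m r : ℕ) {c₀ : ℝ} (hc₀ : 0 < c₀) : ∃ κ D1 : ℕ, 1 ≤ κ ∧ g ≤ κ ∧
    ∀ (v : ℕ) (S : Sp) (s : MSys S N (lin g) (Fin r)), C m S g r s → Inv v s →
      ∀ (c a w : ℝ) (P : ℕ → ℝ) (ha0 : 0 < a) (ha1 : a ≤ 1), c₀ ≤ c → c < a → 0 < w → a + w ≤ 1 →
      (∀ (T : Sp) (p : Pj T S) (B : ∀ k, (T.F k).Ω → Prop) (hB : 0 < ul (T.pr B)) (j : ℕ)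
        (hj : j ≤ N), volP ((s.im p B hB).trn a ha0 ha1) (rbot _) (c / a) hj = P j) →
      ∀ W₀ : Rsl S, KLb s (rbot S) c (Lab.ofZ W₀) →
        ∃ (z : RW s N) (W : Rsl S), z.Z.l = Lab.ofZ W ∧ (∀ᶠ k in UF, W k ≤ W₀ k) ∧ z.Z.c = c ∧ z.Z.u = w ∧ z.κ = κ ∧
          z.D ≤ D1 ∧ KLb s (rbot S) z.Z.c z.Z.l ∧ Flg z (fun j => a * lamK (s.trn a ha0 ha1) (rbot S) (c / a) j) ∧
          OptLam z (rbot S) (fun j => a * lamK (s.trn a ha0 ha1) (rbot S) (c / a) j) ∧ Tam z a ∧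
          C m z.Z.sp z.κ r z.sys ∧ Inv v z.sys ∧ Pt z.sys (rover z.Z.l z.Z.u z.Z.hu (rbot S)) ∧
          ∀ j : ℕ, ∀ hj : j ≤ N, volP (S := S.chg S.tr a ha0) (s.trn a ha0 ha1) (rbot S) (c / a) hj = P j := by
  obtain ⟨D₁, hD₁, hatt⟩ := Pool.Agent.Helper48.ROK.att_all hst g
  obtain ⟨D₂, hD₂, hattE⟩ := Pool.Agent.Helper48.ROK.att_allE hst g
  obtain ⟨D₃, hD₃⟩ := stu_deg hst g
  obtain ⟨D, hDd⟩ : ∃ D : ℕ, D = max (max D₁ D₂) D₃ := ⟨_, rfl⟩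
  have hd1 : D₁ ≤ D := by omega
  have hd2 : D₂ ≤ D := by omega
  have hd3 : D₃ ≤ D := by omega
  have hD : 1 ≤ D := hD₁.trans hd1
  obtain ⟨κ, hκd⟩ : ∃ κ : ℕ, κ = max g ⌈((D : ℝ) + 2) / c₀⌉₊ := ⟨_, rfl⟩
  have hκg : g ≤ κ := by
    rw [hκd]
    exact le_max_left _ _
  have hκn : ⌈((D : ℝ) + 2) / c₀⌉₊ ≤ κ := by
    rw [hκd]
    exact le_max_right _ _
  have hκc : ((D : ℝ) + 2) / c₀ ≤ κ := (Nat.le_ceil _).trans (Nat.cast_le.mpr hκn)
  obtain ⟨D1, hZ1⟩ := hZ A C hC m g r D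
  refine ⟨κ, D1, hg.trans hκg, hκg, fun v S s hCs hInv c a w P ha0 ha1 hc hca hw haw hP W₀ hW₀' => ?_⟩
  have hc0 : 0 < c := hc₀.trans_le hc
  have hb0 : 0 ≤ c / a := (div_pos hc0 ha0).le
  have hb1 : c / a < 1 := (div_lt_one ha0).2 hca
  have hPE : AllE (fun S (t : MSys S N (lin g) (Fin r)) R' => ∀ (j : ℕ) (hj : j ≤ N),
      volP (S := S.chg S.tr a ha0) (t.trn a ha0 ha1) R' (c / a) hj = P j) S s (rbot S) :=
    fun T p B hB j hj => hP T p B hB j hj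
  have hself : ∀ (j : ℕ) (hj : j ≤ N), volP (S := S.chg S.tr a ha0) (s.trn a ha0 ha1) (rbot S) (c / a) hj = P j :=
    Pool.Agent.Helper52.MW.AllE_self hPE
  have hrig : AllE (fun _ t R' => ∀ (j : ℕ) (hj : j ≤ N), volP t R' (c / a) hj =
      volP (S := S.chg S.tr a ha0) (s.trn a ha0 ha1) (rbot S) (c / a) hj) (S.chg S.tr a ha0) (s.trn a ha0 ha1)
        (rbot S) :=
    Pool.Agent.Helper71.VIS.AllE_trn ha0 ha1 (fun S s R h j hj => (h j hj).trans (hself j hj).symm) hPE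
  have hPt : Pt (S := S.chg S.tr a ha0) (s.trn a ha0 ha1) (rbot S) := pt_bot (S := S.chg S.tr a ha0) (s.trn a ha0 ha1)
  have hd : ∀ (j : ℕ) (hj : j ≤ N), volC (KZ (S := S.chg S.tr a ha0) (rbot S)) (cndR (s.trn a ha0 ha1) (rbot S) (c / a))
      (pfx (s.trn a ha0 ha1).Q hj) D ≤ volP (s.trn a ha0 ha1) (rbot S) (c / a) hj :=
    hatt D hd1 (Fin r) (S.chg S.tr a ha0) (s.trn a ha0 ha1) (rbot S) hPt (c / a) hb0 hb1
  have hdX : AllE (fun _ t R' => ∀ (j : ℕ) (hj : j ≤ N), volC (KZ R') (cndR t R' (c / a)) (pfx t.Q hj) D ≤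
      volP t R' (c / a) hj) (S.chg S.tr a ha0) (s.trn a ha0 ha1) (rbot S) :=
    hattE D hd2 (Fin r) (S.chg S.tr a ha0) (s.trn a ha0 ha1) (rbot S) hPt (c / a) hb0 hb1
  have hSv : Vpf D (c / a) (vP (s.trn a ha0 ha1) (rbot S) (c / a)) (s.trn a ha0 ha1) (rbot S) :=
    vpf_of (fun j hj => (vP_eq (s.trn a ha0 ha1) (rbot S) (c / a) hj).symm) hd
  have hXv : AllE (fun _ t R' => Vpf D (c / a) (vP (s.trn a ha0 ha1) (rbot S) (c / a)) t R') (S.chg S.tr a ha0)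
      (s.trn a ha0 ha1) (rbot S) := fun T p B hB =>
    vpf_of (s := (s.trn a ha0 ha1).im p B hB) (R := rbot S)
      (fun j hj => (hrig T p B hB j hj).trans (vP_eq (s.trn a ha0 ha1) (rbot S) (c / a) hj).symm) (hdX T p B hB)
  have hlam : ∀ j : Fin N, lamK (s.trn a ha0 ha1) (rbot S) (c / a) j ≤ 1 := by
    intro j
    have h1 := thv_le (S := S.chg S.tr a ha0) hPt hD (hD₃ D hd3) hb0 hb1 hSv hXv (u := 0)
      (fun x hx => grb_zero hx.1.1) j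
    rw [sub_zero] at h1
    exact (le_of_eq (thv_vP (S := S.chg S.tr a ha0) (s.trn a ha0 ha1) (rbot S) (c / a) j).symm).trans h1
  have hκe : ∀ i, (s.lf i).e ≤ κ := fun i => by
    have h1 : (s.lf i).e ≤ lin g 0 := (s.lf i).he
    have h2 : lin g 0 = g := by
      unfold lin
      omega
    omega
  have hΛκ : a * ((D : ℝ) + 1) + w ≤ c * (κ + 1) := by
    have h1 : (D : ℝ) + 2 ≤ κ * c₀ := (div_le_iff₀ hc₀).mp hκc
    have h2 : (κ : ℝ) * c₀ ≤ κ * c := mul_le_mul_of_nonneg_left hc (Nat.cast_nonneg κ)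
    have h3 : a * ((D : ℝ) + 1) ≤ 1 * (D + 1) := mul_le_mul_of_nonneg_right ha1 (by positivity)
    nlinarith
  obtain ⟨z, W, hWW, hzW, hzc, hzu, hzκ, hzD, -, hzK, -, hzF, hzT, hzO, hzP⟩ :=
    exists_rwa (s := s) (R := rbot S) (pt_bot s) hD (hD₃ D hd3) ha0 ha1 hc0 hca hw haw hrig hd hdX
      (Λ := (D : ℝ) + 1) (by positivity) (fun x hx => sz_top hx.1.1 le_rfl) (κ := κ) (hg.trans hκg) hκe hΛκ hW₀'
  have hzK' : KLb s (rbot S) z.Z.c z.Z.l := by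
    rw [hzc]
    exact hzK
  obtain ⟨z', W', hW', hle, -, hc', hu', hκ', hK', hF', hC', hP', hD1, hT'⟩ :=
    hZ1 S s hCs (rbot S) (pt_bot s) z _ W hzD.le hzW hzK' hzF hzO
  have ec : z'.Z.c = c := hc'.trans hzc
  have eu : z'.Z.u = w := hu'.trans hzu
  have eκ : z'.κ = κ := hκ'.trans hzκ
  have hK2 : KLb s (rbot S) z'.Z.c z'.Z.l := by
    rw [hc']
    exact hK'
  have hTa : Tam z' a := hT' a (by
    rw [hzc]
    exact hca.le) (fun j => by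
      have := hlam j
      nlinarith) hzT
  have hO2 : OptLam z' (rbot S) (fun j => a * lamK (s.trn a ha0 ha1) (rbot S) (c / a) j) :=
    Or.inr ⟨a, ha0, ha1, by
      rw [ec]
      exact hca.le, by
      rw [eu]
      exact haw, hTa, fun j => by
      rw [ec]⟩
  have hI2 : Inv v z'.sys := hI v S g r s (rbot S) hInv (pt_bot s) z' _ W' (by
    rw [ec]
    exact hc0) hW' hK2 hF' hO2 (hP' hzP)
  exact ⟨z', W', hW', hle.mono fun k h => h.trans (hWW k), ec, eu, eκ, hD1, hK2, hF', hO2, hTa, hC', hI2, hP' hzP,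
    hself⟩

/-- the sum of the exponents -/
theorem sum_trn {N g r : ℕ} {S : Sp} (s : MSys S N (lin g) (Fin r)) {a c : ℝ} (ha0 : 0 < a) (ha1 : a ≤ 1) :
    ∑ j, a * lamK (s.trn a ha0 ha1) (rbot S) (c / a) j =
      a * (N - volKO (S := S.chg S.tr a ha0) (s.trn a ha0 ha1) (rbot S) (c / a)) := by
  rw [← Finset.mul_sum, Pool.Agent.Helper37.OKD.sum_lam (S := S.chg S.tr a ha0) (s.trn a ha0 ha1) (rbot S) (c / a)
    (fun j => rfl), volKO_eq (S := S.chg S.tr a ha0) (s.trn a ha0 ha1) (rbot S) (c / a)]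

/-- **[ZEX]** -/
theorem row_zex {N : ℕ} (hI : INVO N) (hZ : ZTam N) : ROW_ZEX N := by
  intro A C hC hst v m g r i j c₀ hg hc₀
  obtain ⟨κ, _, hκ1, -, hz⟩ := exists_tz hI hZ hC hst g hg m r hc₀
  refine ⟨κ, hκ1, fun S s hs c a w P hc hca hw haw hP => ?_⟩
  obtain ⟨⟨hCs, hInv⟩, hTri⟩ := hs
  have hc0 : 0 < c := hc₀.trans_le hc
  have ha0 : 0 < a := hc0.trans hca
  have ha1 : a ≤ 1 := by linarith
  obtain ⟨W₀, hW₀⟩ := exists_lit_kap s c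
  have hW₀' : KLb s (rbot S) c (Lab.ofZ W₀) := (tlb_iff s c _).mpr fun i => hW₀.1 (some i)
  obtain ⟨z', W', hW', hle', ec, eu, eκ, -, hK2, hF', hO2, hTa, hC', hI2, -, hself⟩ :=
    hz v S s hCs hInv c a w P ha0 ha1 hc hca hw haw (fun T p B hB j hj => hP ha0 ha1 T p B hB j hj) W₀ hW₀'
  have hsum : ∑ j, a * lamK (s.trn a ha0 ha1) (rbot S) (c / a) j = a * (N - P N) := by
    rw [sum_trn, volKO_eq (S := S.chg S.tr a ha0) (s.trn a ha0 ha1) (rbot S) (c / a),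
      (Pool.Agent.Helper37.OKD.volP_full (S := S.chg S.tr a ha0) (s.trn a ha0 ha1) (rbot S) (c / a)
      le_rfl).symm.trans (hself N le_rfl)]
  obtain ⟨Z, hZW, hZP⟩ := exists_zst z' hW' ec eu eκ hK2 hF' hO2 hTa hca.le haw hsum
  refine ⟨Z, ?_, hZP (fun S κ t _ => C m S κ r t) hC', hZP (fun S κ t _ => Inv v t) hI2,
    hZP (fun S κ t _ => ∀ i, (t.lf i).e = (s.lf i).e) (fun i => z'.sys_e i),
    hZP (fun S κ t _ => Pool.Agent.Helper26.OUT.WDs (fun _ => (κ : ℝ)) t) (Pool.Agent.Helper7.RD.rw_poly z')⟩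
  rw [hZW]
  have htlb : TLb s c (Lab.ofZ W') := by
    have h1 := (tlb_iff s _ _).mp hK2
    rwa [ec, hW'] at h1
  exact kap_finer hW₀ hle' (Pool.Agent.Helper3.ENT.Tri.dmc (i := i) (j := j) hTri (by linarith) htlb)

end

end Pool.Agent.Helper37.FST
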