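import Pool.Agent.Helper37.FST.Zex
import Pool.Agent.Helper4.FRK.Top

/-! The exponents of tame rows of total optimal exponent are the exponents of the optimal flag of the level 1. -/

set_option autoImplicit false

namespace Pool.Agent.Helper37.FST

open Finset Filter Topology Matrix Pool.Agent.Helper69.RK Pool.Agent.Helper31.EC Pool.Agent.Helper31.EC.Sp
open Pool.Agent.Helper40.EL Pool.Agent.Helper89.LX Pool.Agent.Helper84.MT
open Pool.Agent.Helper36.AM
open Pool.Agent.Helper3.LF (Mon)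
open Pool.Agent.Helper29.MX
open Pool.Agent.Helper7.GZ (ZU Rows jac)
open Pool.Agent.Helper7.RD (RW volC volCO)
open Pool.Agent.Helper87.NSL (cndR KnS)
open Pool.Agent.Helper4.FRK (FlR)
open Pool.Agent.Helper37.OKD (grd det_tri det_row jac_nrow nrow dom_typ)

noncomputable section

variable {S : Sp} {N : ℕ} {E : ℕ → ℕ} {ι : Type}

/-- quotients of diagonal derivatives of triangular rows -/
theorem tri_quot {P : Fin N → MvPolynomial (Fin N) ℝ} (h : ∀ j, ∀ i ∈ (P j).vars, i ≤ j)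
    {q : MvPolynomial (Fin N) ℝ} {i : Fin N} (hq : ∀ a ∈ q.vars, a ≤ i) (x : Fin N → ℝ)
    (hd : ∀ j, MvPolynomial.eval x (MvPolynomial.pderiv j (P j)) ≠ 0) :
    MvPolynomial.eval x (MvPolynomial.pderiv i q) =
      MvPolynomial.eval x (MvPolynomial.pderiv i (P i)) * (grd q x ᵥ* (jac P x)⁻¹) i := by
  classical
  have hE : ∏ j ∈ Finset.univ.erase i, MvPolynomial.eval x (MvPolynomial.pderiv j (P j)) ≠ 0 :=
    Finset.prod_ne_zero_iff.mpr fun j _ => hd j
  have hJ : (jac P x).det ≠ 0 := by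
    rw [det_tri h]
    exact Finset.prod_ne_zero_iff.mpr fun j _ => hd j
  have htri : ∀ j, ∀ a ∈ (Function.update P i q j).vars, a ≤ j := by
    intro j a ha
    by_cases hj : j = i
    · subst hj
      rw [Function.update_self] at ha
      exact hq a ha
    · rw [Function.update_of_ne hj] at ha
      exact h j a ha
  have h1 := det_row (jac P x) hJ i (grd q x)
  have h2 := det_tri htri x
  have h3 : jac (Function.update P i q) x = (jac P x).updateRow i (grd q x) := jac_nrow q i P x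
  have h4 : ∏ j ∈ Finset.univ.erase i, MvPolynomial.eval x (MvPolynomial.pderiv j (Function.update P i q j)) =
      ∏ j ∈ Finset.univ.erase i, MvPolynomial.eval x (MvPolynomial.pderiv j (P j)) :=
    Finset.prod_congr rfl fun j hj => by rw [Function.update_of_ne (Finset.ne_of_mem_erase hj)]
  have h5 := Finset.mul_prod_erase Finset.univ (fun j => MvPolynomial.eval x (MvPolynomial.pderiv j (P j)))
    (Finset.mem_univ i)
  have h6 := Finset.mul_prod_erase Finset.univ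
    (fun j => MvPolynomial.eval x (MvPolynomial.pderiv j (Function.update P i q j))) (Finset.mem_univ i)
  simp only [Function.update_self] at h6
  rw [h3, h1, det_tri h, ← h6, ← h5, h4] at h2
  refine mul_right_cancel₀ hE ?_
  rw [← h2]
  ring

theorem typ_exists {T : Sp} {E : ∀ k, (T.F k).Ω → Prop} (h : Typ E) : ∀ᶠ k in UF, ∃ ω, (T.F k).μ ω ≠ 0 ∧ E k ω := by
  have h1 := (show Tendsto (fun k => (T.F k).pb (fun ω => ¬ E k ω)) UF (𝓝 0) from h).eventually
    (gt_mem_nhds one_pos)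
  filter_upwards [h1] with k hk
  by_contra hno
  push Not at hno
  have h2 : (T.F k).pb (fun _ => True) ≤ (T.F k).pb (fun ω => ¬ E k ω) :=
    FSp.pb_mono _ fun ω hω _ => hno ω hω
  have h3 := (T.F k).pb_add_compl (fun _ => True)
  have h4 : (T.F k).pb (fun _ => ¬ True) = 0 := by
    unfold FSp.pb mass
    refine Finset.sum_eq_zero fun ω _ => ?_
    rw [res_neg (T.F k).μ (fun _ => ¬ True) ω (not_not.mpr trivial)]
  linarith

/-- RIGHT ORDER of the exponents: optimal rows over a finer label have at least the exponents of any flag -/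
theorem lam_le [Finite ι] {s : MSys S N E ι} {R : Rsl S} (hR : Pt s R) (z : RW s N) {W W1 : Rsl S}
    (hW : z.Z.l = Lab.ofZ W) (hWW : ∀ᶠ k in UF, W k ≤ W1 k) (hK : KLb s R z.Z.c z.Z.l) {lam : Fin N → ℝ}
    (hF : Flg z lam) (hsum : N - volKO s R z.Z.c ≤ ∑ j, lam j) {D : ℕ} {Λ : ℝ} (P : Rows s.Q (Lab.ofZ W1) N D Λ 0)
    {mu : Fin N → ℝ} (hP : FlR P mu) (i : Fin N) : mu i ≤ lam i := by
  rw [volKO_eq] at hsum
  obtain ⟨⟨l, c', u', h0, hu, h5⟩, hcp, dm, D', Λ', Rw, X, hX, κz, hκ1, hek, hκ⟩ := z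
  dsimp only at hW hsum hK
  subst hW
  have htri : ∀ k (ω : (S.F k).Ω) j, ∀ i ∈ (Rw.p k ω j).vars, i ≤ j := hF.tri
  have hex : ∀ ε : ℝ, 0 < ε → S.Typ fun k (ω : (S.F k).Ω) => ∀ j, 2 ^ ((lam j - ε) * (S.F k).n) ≤
      |MvPolynomial.eval (s.Q.v k ω) (MvPolynomial.pderiv j (Rw.p k ω j))| ∧
      |MvPolynomial.eval (s.Q.v k ω) (MvPolynomial.pderiv j (Rw.p k ω j))| ≤ 2 ^ ((lam j + ε) * (S.F k).n) := hF.ex
  have hqx : ∀ ε : ℝ, 0 < ε → S.Typ fun k (ω : (S.F k).Ω) => ∀ j, 2 ^ ((mu j - ε) * (S.F k).n) ≤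
      |MvPolynomial.eval (s.Q.v k ω) (MvPolynomial.pderiv j (P.p k ω j))| ∧
      |MvPolynomial.eval (s.Q.v k ω) (MvPolynomial.pderiv j (P.p k ω j))| ≤ 2 ^ ((mu j + ε) * (S.F k).n) := hP.ex
  have hqt : ∀ k (ω : (S.F k).Ω), ∀ a ∈ (P.p k ω i).vars, a ≤ i := fun k ω => hP.tri k ω i
  have htm : ∀ L : ℕ → ℝ, S.Sub L → ∃ K : ℕ → ℝ, S.Sub K ∧ Typ (S := (Lab.ofZ W).sp) (fun k (ω : (S.F k).Ω) =>
      ∀ y : Fin N → ℝ, (∀ i, |y i - s.Q.v k ω i| ≤ L k * S.dl 1 k) → ∀ j,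
        |MvPolynomial.eval y (Rw.p k ω j) - MvPolynomial.eval (s.Q.v k ω) (Rw.p k ω j)| ≤ K k) := by
    intro L hL
    obtain ⟨K, hK, h2⟩ := Rw.lp L hL
    refine ⟨K, hK, Typ.mono (S := (Lab.ofZ W).sp) h2 ?_⟩
    filter_upwards [hK.1] with k hk0 ω _ hh y hy j
    refine (hh y hy j).trans (mul_le_of_le_one_right hk0 ?_)
    rw [← S.dl_zero k]
    exact S.dl_anti hu.le k
  have hqtm : ∀ L : ℕ → ℝ, S.Sub L → ∃ K : ℕ → ℝ, S.Sub K ∧ Typ (S := (Lab.ofZ W).sp) (fun k (ω : (S.F k).Ω) =>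
      ∀ y : Fin N → ℝ, (∀ i, |y i - s.Q.v k ω i| ≤ L k * S.dl 1 k) →
        |MvPolynomial.eval y (P.p k ω i) - MvPolynomial.eval (s.Q.v k ω) (P.p k ω i)| ≤ K k) := by
    intro L hL
    obtain ⟨K, hK, h2⟩ := P.lp L hL
    refine ⟨K, hK, Typ.mono (S := (Lab.ofZ W).sp) h2 ?_⟩
    filter_upwards [hK.1] with k hk0 ω _ hh y hy
    have h3 := hh y hy i
    rw [S.dl_zero k, mul_one] at h3
    exact h3
  obtain ⟨Kq, hKq, hq⟩ := P.cf
  obtain ⟨Kb, hKb, hqb⟩ := P.bd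
  have hdom := dom_typ (A := cndR s R c') s.Q hR hK.1 hK.2 Rw.p Rw.deg Rw.fn Rw.cf Rw.bd htm htri lam
    (fun e he => Typ.mono (S := (Lab.ofZ W).sp) (hex e he) (Eventually.of_forall fun k ω _ h j => (h j).1)) hsum
    (fun k ω => P.p k ω i) (D' := D) (Λ' := Λ) (fun k ω => P.deg k ω i) (by
      filter_upwards [P.fn, hWW] with k h1 h2
      intro (ω : (S.F k).Ω) (ω' : (S.F k).Ω) a b d e
      have h3 : P.p k ω = P.p k ω' := h1 ω ω' a b d (h2 e)
      show P.p k ω i = P.p k ω' i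
      rw [h3]) ⟨Kq, hKq, by
      filter_upwards [hq] with k h1
      intro (ω : (S.F k).Ω) hω a
      exact h1 ω hω i a⟩ ⟨Kb, hKb, Typ.mono (S := (Lab.ofZ W).sp) hqb (Eventually.of_forall fun k ω _ h => h i)⟩ hqtm
  refine le_of_forall_pos_le_add fun e he => ?_
  have he3 : 0 < e / 3 := by positivity
  have hT := Typ.and (S := (Lab.ofZ W).sp) (hdom (e / 3) he3) (Typ.and (S := (Lab.ofZ W).sp) (hex (e / 3) he3)
    (hqx (e / 3) he3))
  obtain ⟨k, hk⟩ := (typ_exists hT).exists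
  obtain ⟨ω, -, h1, h2, h3⟩ := hk
  have hn := (S.F k).pos
  have hd0 : ∀ j, MvPolynomial.eval (s.Q.v k ω) (MvPolynomial.pderiv j (Rw.p k ω j)) ≠ 0 := by
    intro j hj
    have h4 := (h2 j).1
    rw [hj, abs_zero] at h4
    exact absurd h4 (not_le.2 (by positivity))
  have h4 := tri_quot (htri k ω) (hqt k ω) (s.Q.v k ω) hd0
  have h5 : |MvPolynomial.eval (s.Q.v k ω) (MvPolynomial.pderiv i (P.p k ω i))| ≤
      2 ^ ((lam i + e / 3) * (S.F k).n) * 2 ^ (e / 3 * (S.F k).n) := by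
    rw [h4, abs_mul]
    exact mul_le_mul (h2 i).2 (h1 i) (abs_nonneg _) (by positivity)
  have h6 := (h3 i).1.trans h5
  rw [← Real.rpow_add (by norm_num), Real.rpow_le_rpow_left_iff (by norm_num)] at h6
  have h7 : (mu i - e / 3) * (S.F k).n ≤ (lam i + 2 * (e / 3)) * (S.F k).n := by linarith
  have h8 := le_of_mul_le_mul_right h7 hn
  linarith

/-- equality, if the sums are equal -/
theorem lam_eq [Finite ι] {s : MSys S N E ι} {R : Rsl S} (hR : Pt s R) (z : RW s N) {W W1 : Rsl S}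
    (hW : z.Z.l = Lab.ofZ W) (hWW : ∀ᶠ k in UF, W k ≤ W1 k) (hK : KLb s R z.Z.c z.Z.l) {lam : Fin N → ℝ}
    (hF : Flg z lam) (hsum : N - volKO s R z.Z.c ≤ ∑ j, lam j) {D : ℕ} {Λ : ℝ} (P : Rows s.Q (Lab.ofZ W1) N D Λ 0)
    {mu : Fin N → ℝ} (hP : FlR P mu) (hs : ∑ j, lam j ≤ ∑ j, mu j) : lam = mu := by
  have h1 : ∀ i ∈ (Finset.univ : Finset (Fin N)), mu i ≤ lam i := fun i _ => lam_le hR z hW hWW hK hF hsum P hP i
  have h2 := (Finset.sum_eq_sum_iff_of_le h1).mp (le_antisymm (Finset.sum_le_sum h1) hs)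
  exact funext fun i => (h2 i (Finset.mem_univ i)).symm

end

end Pool.Agent.Helper37.FST
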