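import Pool.Agent.Helper37.FST.Zl
import Pool.Agent.Helper15.FST.Zmx
import Pool.Agent.Helper63.ZMX.Bkz

/-! Row ZMX of `Helper15/FST/Zmx`: zooms over maximal labels at a rigid window, in tame optimal flag rows, with the numbers
of all prefixes. -/

set_option autoImplicit false

namespace Pool.Agent.Helper37.FST

open Finset Filter Topology Matrix Pool.Agent.Helper69.RK Pool.Agent.Helper31.EC Pool.Agent.Helper31.EC.Sp
open Pool.Agent.Helper40.EL Pool.Agent.Helper89.LX Pool.Agent.Helper84.MT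
open Pool.Agent.Helper36.AM
open Pool.Agent.Helper3.LF (Mon)
open Pool.Agent.Helper29.MX
open Pool.Agent.Helper7.GZ (ZU Rows jac)
open Pool.Agent.Helper7.RD (RW volC volCO)
open Pool.Agent.Helper87.NSL (cndR KnS)
open Pool.Agent.Helper94.SEL (num tot lmd BK)
open Pool.Agent.Helper4.FRK (Vpf vpf_of vP vP_eq thv thv_vP lamK grb_zero sz_top exists_flr exists_car_le FlR)
open Pool.Agent.Helper15.FST

noncomputable section

/-- flag rows of the level 1 over a literal label which is finer than a given one -/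
theorem exists_flag {N g r : ℕ} (hst : ∀ m, m < N → STu m) : ∃ D : ℕ, ∀ (S : Sp) (s : MSys S N (lin g) (Fin r)) (c : ℝ),
    0 ≤ c → c < 1 → (∀ (T : Sp) (p : Pj T S) (B : ∀ k, (T.F k).Ω → Prop) (hB : 0 < ul (T.pr B)) (j : ℕ) (hj : j ≤ N),
      volP (s.im p B hB) (rbot _) c hj = volP s (rbot S) c hj) → ∀ W₀ : Rsl S, KLb s (rbot S) c (Lab.ofZ W₀) →
      ∃ (W : Rsl S) (P : Rows s.Q (Lab.ofZ W) N D ((D : ℝ) + 1) 0), (∀ k, W k ≤ W₀ k) ∧
        KLb s (rbot S) c (Lab.ofZ W) ∧ FlR P (lamK s (rbot S) c) := by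
  obtain ⟨D₁, hD₁, hatt⟩ := Pool.Agent.Helper48.ROK.att_all hst g
  obtain ⟨D₂, hD₂, hattE⟩ := Pool.Agent.Helper48.ROK.att_allE hst g
  obtain ⟨D₃, hD₃⟩ := stu_deg hst g
  obtain ⟨D, hDd⟩ : ∃ D : ℕ, D = max (max D₁ D₂) D₃ := ⟨_, rfl⟩
  have hd1 : D₁ ≤ D := by omega
  have hd2 : D₂ ≤ D := by omega
  have hd3 : D₃ ≤ D := by omega
  have hD : 1 ≤ D := hD₁.trans hd1
  refine ⟨D, fun S s c hc0 hc1 hrig W₀ hW₀ => ?_⟩
  have hS : Vpf D c (vP s (rbot S) c) s (rbot S) := vpf_of (fun j hj => (vP_eq s (rbot S) c hj).symm)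
    (hatt D hd1 (Fin r) S s (rbot S) (pt_bot s) c hc0 hc1)
  have hX : AllE (fun _ t R' => Vpf D c (vP s (rbot S) c) t R') S s (rbot S) := fun T p B hB =>
    vpf_of (s := s.im p B hB) (R := rbot S) (fun j hj => (hrig T p B hB j hj).trans (vP_eq s (rbot S) c hj).symm)
      (hattE D hd2 (Fin r) S s (rbot S) (pt_bot s) c hc0 hc1 T p B hB)
  obtain ⟨W, hW, hWc⟩ := exists_car_le (pt_bot s) hW₀
  obtain ⟨W', P, hW', hl, -, hF⟩ := exists_flr (s := s) (R := rbot S) (pt_bot s) hD (hD₃ D hd3) hc0 hc1 hS hX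
    (u := 0) (Λ := (D : ℝ) + 1) (by positivity) (fun x hx => grb_zero hx.1.1) (fun x hx => sz_top hx.1.1 le_rfl) hWc
  have e1 : (fun j : Fin N => thv (vP s (rbot S) c) j.val) = lamK s (rbot S) c := funext fun j => thv_vP s (rbot S) c j
  rw [e1] at hF
  exact ⟨W', P, fun k => (hW' k).trans (hW k), hl, hF⟩

theorem lmd_eq {N : ℕ} {E : ℕ → ℕ} {ι : Type} {S : Sp} (s : MSys S N E ι) (R : Rsl S) (c : ℝ) :
    lmd s R c = lamK s R c := by
  funext j
  unfold lmd num lamK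
  push_cast
  ring

/-- **[ZMX]** -/
theorem row_zmxp {M : ℕ} (hL : ROW_LEV) (hI : INVO (M + 1)) (hZ : ZTam (M + 1)) : ROW_ZMXP M := by
  intro A C _ hC hst v m g r e0 i j c₀ hg hc₀
  obtain ⟨κ, _, hκ1, -, hz⟩ := exists_tz hI hZ hC hst g hg m r hc₀
  obtain ⟨D, hfl⟩ := exists_flag (g := g) (r := r) hst
  refine ⟨κ, hκ1, fun S s hs he0 c a w b1 P hc hca hw haw hb0 hb1 hUL hP hrig hUb => ?_⟩
  obtain ⟨⟨hCs, hInv⟩, hTri⟩ := hs
  have hc0 : 0 < c := hc₀.trans_le hc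
  have ha0 : 0 < a := hc0.trans hca
  have ha1 : a ≤ 1 := by linarith
  have hwb : 0 < w * b1 := mul_pos hw hb0
  have hwb1 : w * b1 ≤ w := mul_le_of_le_one_right hw.le hb1
  obtain ⟨W₀, hW₀⟩ := exists_lit_kap s c
  have hW₀' : KLb s (rbot S) c (Lab.ofZ W₀) := (tlb_iff s c _).mpr fun i => hW₀.1 (some i)
  obtain ⟨W1, Pr, hW1, hK1, hFl⟩ := hfl S s c hc0.le (by linarith)
    (fun T p B hB j hj => hrig T p B hB c le_rfl (by linarith) j hj) W₀ hW₀'
  obtain ⟨z', W', hW', hle', ec, eu, eκ, -, hK2, hF', hO2, hTa, hC', hI2, hlit, -⟩ :=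
    hz v S s hCs hInv c a w P ha0 ha1 hc hca hw haw (fun T p B hB j hj => hP ha0 ha1 T p B hB j hj) W1 hK1
  have hLs := hL S (M + 1) g r s
  have hU1 : UL s 1 c = (M + 1 : ℕ) - volKO s (rbot S) c := hLs.1 c hc0.le (by linarith)
  have hUa : UL s a c = ∑ j, a * lamK (s.trn a ha0 ha1) (rbot S) (c / a) j := by
    rw [sum_trn]
    unfold UL
    rw [dif_pos ⟨ha0, ha1⟩]
    rfl
  have hs1 : ∑ j, lamK s (rbot S) c j = UL s 1 c := by
    rw [Pool.Agent.Helper37.OKD.sum_lam s (rbot S) c (fun j => rfl), ← volKO_eq, hU1]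
  have hlow : UL s a c ≤ UL s 1 c := hLs.2.1 a 1 c ha0 ha1 le_rfl hc0.le hca.le
  have hlam : (fun j => a * lamK (s.trn a ha0 ha1) (rbot S) (c / a) j) = lamK s (rbot S) c :=
    lam_eq (pt_bot s) z' hW' hle' hK2 hF' (by
      rw [ec, ← hUa, ← hU1]
      exact hUL) Pr hFl (by
      rw [← hUa, hs1]
      exact hlow)
  rw [hlam] at hF' hO2
  obtain ⟨Z, hZW, hZP⟩ := exists_zst z' hW' ec eu eκ hK2 hF' hO2 hTa hca.le haw hs1
  have hbk := Pool.Agent.Helper63.ZMX.bk_zoom_of hst (pt_bot s) he0 hW' hK2 (by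
    rw [ec, lmd_eq]
    exact hF') hlit hC' hI2 hb0 hb1 (fun T q A hA c' h1 h2 j hj => by
      rw [ec] at h1 h2
      rw [eu] at h2
      have h3 := hrig T q A hA c' h1 h2 j hj
      have h4 : (j : ℝ) - volP (s.im q A hA) (rbot _) c' hj = j - volP s (rbot S) c' hj := by rw [h3]
      exact h4) (fun b h1 h2 => by
      have h3 := hUb b h1 h2
      have h4 : w * b ≤ w := mul_le_of_le_one_right hw.le (by linarith)
      rw [hLs.1 (c + w * b) (add_nonneg hc0.le (mul_nonneg hw.le h1)) (by linarith), hU1] at h3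
      rw [ec, eu]
      exact h3)
  refine ⟨Z, ?_, hZP (fun S κ t R => BK (C m) v κ r e0 b1 S t R) hbk.1, fun b h1 h2 j hj => ?_⟩
  · rw [hZW]
    have htlb : TLb s c (Lab.ofZ W') := by
      have h1 := (tlb_iff s _ _).mp hK2
      rwa [ec, hW'] at h1
    exact kap_finer hW₀ (hle'.mono fun k h => h.trans (hW1 k))
      (Pool.Agent.Helper3.ENT.Tri.dmc (i := i) (j := j) hTri (by linarith) htlb)
  · have h3 := hbk.2 b h1 h2 j hj
    have h4 : (num s (rbot S) hj (z'.Z.c + z'.Z.u * b) - num s (rbot S) hj z'.Z.c) / z'.Z.u =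
        (num s (rbot S) hj (c + w * b) - num s (rbot S) hj c) / w := by rw [ec, eu]
    exact hZP (fun S' κ t R => num t R hj b = (num s (rbot S) hj (c + w * b) - num s (rbot S) hj c) / w) (h3.trans h4)

end

end Pool.Agent.Helper37.FST
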